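import Pool.Agent.Helper42.TH.Goals1
import Pool.Agent.Helper42.WY.NANAG

/-!
# Project TH (MP_fc6b1e_nt, T100), packet T_EX1: the sets which contain a large prime of `V`
-/

set_option autoImplicit false

namespace Pool.Agent.Helper95.TH

open Finset
open Pool.Agent.Helper17.PP (Sys lg)
open Pool.Agent.Helper11.M3 (HypW)
open Pool.Agent.Helper9.ND (fin_fam ncard_fam sub_upto nm_pos)
open Pool.Agent.Helper42.WY (firstW)

section

variable {p : ℕ} {B B₀ k U Λ C : Type} [Field k] [AddCommGroup U] [Module k U]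
    [AddCommGroup Λ] [Module k Λ] [AddCommGroup C]

theorem mem_below' (S : Sys p B B₀ k U Λ C) {n : ℕ} {q : B} (h : S.bl q < n) :
    q ∈ S.below n := by
  classical
  unfold Sys.below
  rw [Finset.mem_filter]
  refine ⟨?_, h⟩
  rw [Set.Finite.mem_toFinset]
  change S.N q ≤ 2 ^ n
  have h1 : S.N q < 2 ^ (Nat.log 2 (S.N q) + 1) := Nat.lt_pow_succ_log_self (by norm_num) _
  have h2 : 2 ^ (Nat.log 2 (S.N q) + 1) ≤ 2 ^ n := Nat.pow_le_pow_right (by norm_num) h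
  exact h1.le.trans h2

theorem nm_erase' [DecidableEq B] (S : Sys p B B₀ k U Λ C) {q : B} {b : Finset B} (hq : q ∈ b) :
    S.nm b = S.N q * S.nm (b.erase q) := by
  unfold Sys.nm
  exact (Finset.mul_prod_erase b S.N hq).symm

theorem bl_le_lg (S : Sys p B B₀ k U Λ C) {q : B} {b : Finset B} {X : ℝ} (hq : q ∈ b)
    (hb : (S.nm b : ℝ) ≤ X) : S.bl q ≤ lg X := by
  have h1 : S.N q ≤ S.nm b := Nat.le_of_dvd (nm_pos S b) (Finset.dvd_prod_of_mem _ hq)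
  have h2 : S.nm b ≤ ⌊X⌋₊ := Nat.le_floor hb
  exact Nat.log_mono_right (h1.trans h2)

theorem pow_lg_le' (X : ℝ) (hX : 1 ≤ X) : (2 : ℝ) ^ lg X ≤ X := by
  have h1 : ⌊X⌋₊ ≠ 0 := by
    intro h
    rw [Nat.floor_eq_zero] at h
    linarith
  have h2 : 2 ^ lg X ≤ ⌊X⌋₊ := Nat.pow_log_le_self 2 h1
  have h3 : ((2 ^ lg X : ℕ) : ℝ) ≤ (⌊X⌋₊ : ℝ) := by exact_mod_cast h2
  have h4 : (⌊X⌋₊ : ℝ) ≤ X := Nat.floor_le (by linarith)
  calc (2 : ℝ) ^ lg X = ((2 ^ lg X : ℕ) : ℝ) := by push_cast; rfl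
    _ ≤ X := h3.trans h4

theorem le_lg' {n : ℕ} {X : ℝ} (hX : (2 : ℝ) ^ n ≤ X) : n ≤ lg X := by
  unfold lg
  have h : 2 ^ n ≤ ⌊X⌋₊ := Nat.le_floor (by exact_mod_cast hX)
  exact Nat.le_log_of_pow_le (by norm_num) h

theorem lg_le_log {X : ℝ} (hX : 1 ≤ X) {m : ℕ} (hm : √X < m) (hL : 2 ≤ lg X) :
    lg X ≤ 3 * Nat.log 2 m := by
  have h1 := pow_lg_le' X hX
  have hm0 : (0 : ℝ) < m := lt_of_le_of_lt (Real.sqrt_nonneg _) hm
  have h2 : X < (m : ℝ) ^ 2 := by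
    rw [Real.sqrt_lt' hm0] at hm
    exact hm
  have h3 : m < 2 ^ (Nat.log 2 m + 1) := Nat.lt_pow_succ_log_self (by norm_num) _
  have h4 : (m : ℝ) < 2 ^ (Nat.log 2 m + 1) := by exact_mod_cast h3
  have h5 : (m : ℝ) ^ 2 < (2 ^ (Nat.log 2 m + 1)) ^ 2 := by
    exact pow_lt_pow_left₀ h4 hm0.le (by norm_num)
  have h6 : (2 : ℝ) ^ lg X < 2 ^ ((Nat.log 2 m + 1) * 2) := by
    rw [pow_mul]
    linarith
  have h7 : lg X < (Nat.log 2 m + 1) * 2 := (pow_lt_pow_iff_right₀ (by norm_num)).mp h6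
  omega

end

section

variable {p : ℕ} {B B₀ k U Λ C : Type} [Field k] [Fintype k] [Algebra (ZMod p) k]
    [AddCommGroup U] [Module k U] [AddCommGroup Λ] [Module k Λ]
    [AddCommGroup C] {S : Sys p B B₀ k U Λ C} {ψ : AddChar k ℂ} {g : ℝ → ℝ} {K : ℕ}

/-- the sets which contain a given prime -/
theorem count_q (hS : HypW S ψ g K) (q : B) {X : ℝ} (hX : 0 < X) :
    ({b : Finset B | q ∈ b ∧ (S.nm b : ℝ) ≤ X}.ncard : ℝ) ≤
      Real.exp 1 * K ^ 2 * (X * g X) * (1 / S.N q) := by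
  classical
  have hN2 := S.two_le q
  have hN : (2 : ℝ) ≤ S.N q := by exact_mod_cast hN2
  have hN0 : (0 : ℝ) < S.N q := by linarith
  have hY : 0 < X / S.N q := by positivity
  have h1 : {b : Finset B | q ∈ b ∧ (S.nm b : ℝ) ≤ X}.ncard ≤
      {b : Finset B | True ∧ (S.nm b : ℝ) ≤ X / S.N q}.ncard := by
    refine Set.ncard_le_ncard_of_injOn (fun b ↦ b.erase q) ?_ ?_ (fin_fam S _ _)
    · rintro b ⟨hb1, hb2⟩
      refine ⟨trivial, ?_⟩
      rw [le_div_iff₀ hN0]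
      rw [nm_erase' S hb1] at hb2
      push_cast at hb2
      rw [mul_comm]
      exact hb2
    · rintro b ⟨hb1, _⟩ b' ⟨hb1', _⟩ h
      have h' : b.erase q = b'.erase q := h
      rw [← Finset.insert_erase hb1, ← Finset.insert_erase hb1', h']
  have h2 := firstW hS (fun _ ↦ True) hY
  have h3 : g (X / S.N q) ≤ K * g X := by
    refine hS.g_mono _ _ ?_
    rw [div_le_iff₀ hN0]
    nlinarith
  have hK : (0 : ℝ) ≤ K := Nat.cast_nonneg _
  calc ({b : Finset B | q ∈ b ∧ (S.nm b : ℝ) ≤ X}.ncard : ℝ)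
      ≤ ({b : Finset B | True ∧ (S.nm b : ℝ) ≤ X / S.N q}.ncard : ℝ) := by exact_mod_cast h1
    _ ≤ Real.exp 1 * K * (X / S.N q * g (X / S.N q)) := h2
    _ ≤ Real.exp 1 * K * (X / S.N q * (K * g X)) := by
        have := (Real.exp_pos 1).le
        gcongr
    _ = _ := by ring

end

open Classical in
theorem t_ex1 : Pool.Agent.Helper42.TH.T_EX1 := by
  intro p _ B B₀ k U Λ C _ _ _ _ _ _ _ _ S ψ g K hS V ρ hρ hV F Ta hF hTa η hη
  have hK1 : (1 : ℝ) ≤ K := by exact_mod_cast hS.one_le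
  have he3 : Real.exp 1 < 3 := by
    have := Real.exp_one_lt_d9
    linarith
  have he0 := Real.exp_pos 1
  obtain ⟨n₀, hn₀⟩ := hV (4 * Ta) (by omega)
  obtain ⟨N₁, hN₁⟩ : ∃ N₁ : ℕ, N₁ = max n₀ 3 := ⟨_, rfl⟩
  refine ⟨max (2 ^ (3 * Ta * N₁)) ((3 * K ^ 2 / η) ^ 2), fun X hX ↦ ?_⟩
  have hXa : (2 : ℝ) ^ (3 * Ta * N₁) ≤ X := (le_max_left _ _).trans hX
  have hXb : (3 * (K : ℝ) ^ 2 / η) ^ 2 ≤ X := (le_max_right _ _).trans hX
  have hX1 : 1 ≤ X := (one_le_pow₀ (by norm_num)).trans hXa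
  have hX0 : 0 < X := by linarith
  have hgX : 1 ≤ g X := hS.g_one X
  have hLa : 3 * Ta * N₁ ≤ lg X := le_lg' hXa
  have hN3 : 3 ≤ N₁ := hN₁ ▸ le_max_right _ _
  have hNn : n₀ ≤ N₁ := hN₁ ▸ le_max_left _ _
  have hTa9 : 9 * Ta ≤ lg X := by
    refine le_trans ?_ hLa
    nlinarith
  have hL2 : 2 ≤ lg X := by omega
  obtain ⟨n, hn⟩ : ∃ n : ℕ, n = lg X / (3 * Ta) := ⟨_, rfl⟩
  have hnN : N₁ ≤ n := by
    rw [hn, Nat.le_div_iff_mul_le (by omega)]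
    rw [mul_comm]
    exact hLa
  have hup : lg X < 4 * Ta * n := by
    have h1 : lg X < 3 * Ta * (n + 1) := by
      rw [hn]
      exact Nat.lt_mul_div_succ _ (by omega)
    have h2 : 3 ≤ n := hN3.trans hnN
    nlinarith
  -- the two parts
  obtain ⟨Q, hQ⟩ : ∃ Q : Finset B, Q = (S.below (4 * Ta * n)).filter (fun q ↦ V q ∧ n ≤ S.bl q) :=
    ⟨_, rfl⟩
  have hQs : ∑ q ∈ Q, (1 : ℝ) / S.N q ≤ ρ * (Real.log (4 * Ta) + 2) := by
    have := hn₀ n (hNn.trans hnN)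
    rw [hQ]
    push_cast at this
    exact this
  have hsub : {b : Finset B | (S.nm b : ℝ) ≤ X ∧
      ∃ q ∈ b, V q ∧ Nat.log 2 (F * S.nm b) ≤ Ta * S.bl q} ⊆
      {b : Finset B | True ∧ (S.nm b : ℝ) ≤ √X} ∪
        ⋃ q ∈ Q, {b : Finset B | q ∈ b ∧ (S.nm b : ℝ) ≤ X} := by
    rintro b ⟨hb1, q, hq, hVq, hlog⟩
    by_cases hb : (S.nm b : ℝ) ≤ √X
    · exact Or.inl ⟨trivial, hb⟩
    · right
      rw [not_le] at hb
      have h1 := lg_le_log hX1 hb hL2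
      have h2 : Nat.log 2 (S.nm b) ≤ Nat.log 2 (F * S.nm b) :=
        Nat.log_mono_right (Nat.le_mul_of_pos_left _ hF)
      have h3 : lg X ≤ 3 * Ta * S.bl q := by nlinarith
      have h4 : n ≤ S.bl q := by
        rw [hn]
        exact Nat.div_le_of_le_mul h3
      have h5 : S.bl q ≤ lg X := bl_le_lg S hq hb1
      have h6 : q ∈ Q := by
        rw [hQ, Finset.mem_filter]
        exact ⟨mem_below' S (by omega), hVq, h4⟩
      simp only [Set.mem_iUnion]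
      exact ⟨q, h6, hq, hb1⟩
  have hfinU : ({b : Finset B | True ∧ (S.nm b : ℝ) ≤ √X} ∪
        ⋃ q ∈ Q, {b : Finset B | q ∈ b ∧ (S.nm b : ℝ) ≤ X}).Finite := by
    refine Set.Finite.union (fin_fam S _ _) ?_
    exact Set.Finite.biUnion (Finset.finite_toSet Q) (fun q _ ↦ fin_fam S _ _)
  have hcard1 : ({b : Finset B | (S.nm b : ℝ) ≤ X ∧
      ∃ q ∈ b, V q ∧ Nat.log 2 (F * S.nm b) ≤ Ta * S.bl q}.ncard : ℝ) ≤
      ({b : Finset B | True ∧ (S.nm b : ℝ) ≤ √X}.ncard : ℝ) +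
        ((⋃ q ∈ Q, {b : Finset B | q ∈ b ∧ (S.nm b : ℝ) ≤ X}).ncard : ℝ) := by
    exact_mod_cast (Set.ncard_le_ncard hsub hfinU).trans (Set.ncard_union_le _ _)
  have hcard2 : ((⋃ q ∈ Q, {b : Finset B | q ∈ b ∧ (S.nm b : ℝ) ≤ X}).ncard : ℝ) ≤
      ∑ q ∈ Q, ({b : Finset B | q ∈ b ∧ (S.nm b : ℝ) ≤ X}.ncard : ℝ) := by
    have := Finset.set_ncard_biUnion_le Q (fun q ↦ {b : Finset B | q ∈ b ∧ (S.nm b : ℝ) ≤ X})
    exact_mod_cast this
  have hcard3 : ∑ q ∈ Q, ({b : Finset B | q ∈ b ∧ (S.nm b : ℝ) ≤ X}.ncard : ℝ) ≤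
      Real.exp 1 * K ^ 2 * (X * g X) * (ρ * (Real.log (4 * Ta) + 2)) := by
    refine (Finset.sum_le_sum fun q _ ↦ count_q hS q hX0).trans ?_
    rw [← Finset.mul_sum]
    refine mul_le_mul_of_nonneg_left hQs ?_
    positivity
  have hsq0 : 0 < √X := Real.sqrt_pos.mpr hX0
  have hsqX : √X ≤ X := by
    rw [Real.sqrt_le_left hX0.le]
    nlinarith
  have hcard4 : ({b : Finset B | True ∧ (S.nm b : ℝ) ≤ √X}.ncard : ℝ) ≤ η * (X * g X) := by
    have h1 := firstW hS (fun _ ↦ True) hsq0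
    have h2 := hS.g_mono _ _ hsqX
    have h3 : 3 * (K : ℝ) ^ 2 / η ≤ √X := Real.le_sqrt_of_sq_le hXb
    have h4 : 3 * (K : ℝ) ^ 2 ≤ η * √X := by
      rw [div_le_iff₀ hη] at h3
      linarith
    have h5 : √X * √X = X := Real.mul_self_sqrt hX0.le
    calc ({b : Finset B | True ∧ (S.nm b : ℝ) ≤ √X}.ncard : ℝ)
        ≤ Real.exp 1 * K * (√X * g (√X)) := h1
      _ ≤ 3 * K * (√X * (K * g X)) := by
          have hgs : 0 ≤ g (√X) := zero_le_one.trans (hS.g_one _)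
          gcongr
      _ = 3 * (K : ℝ) ^ 2 * (√X * g X) := by ring
      _ ≤ η * √X * (√X * g X) := by
          refine mul_le_mul_of_nonneg_right h4 ?_
          positivity
      _ = η * (√X * √X * g X) := by ring
      _ = η * (X * g X) := by rw [h5]
  have hlog0 : 0 ≤ Real.log (4 * Ta) := by
    refine Real.log_nonneg ?_
    have : (1 : ℝ) ≤ Ta := by exact_mod_cast hTa
    linarith
  have hρ2 : 0 ≤ ρ * (Real.log (4 * Ta) + 2) := mul_nonneg hρ (by linarith)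
  have hcard5 : Real.exp 1 * K ^ 2 * (X * g X) * (ρ * (Real.log (4 * Ta) + 2)) ≤
      3 * K ^ 2 * (X * g X) * (ρ * (Real.log (4 * Ta) + 2)) := by
    gcongr
  calc _ ≤ _ := hcard1
    _ ≤ η * (X * g X) + 3 * K ^ 2 * (X * g X) * (ρ * (Real.log (4 * Ta) + 2)) := by
        linarith
    _ = _ := by ring

end Pool.Agent.Helper95.TH
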